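import Pool.Agent.Results.MP_553913_nt.NewformJensen
import Pool.Agent.TH99.RJ.WH

/-!
# The number of non-real zeros of the Jensen polynomials of the L-functions of elliptic curves

Let `f ∈ S_2(Γ_0(N))` have real Fourier coefficients `a(n)`, `a(1) = 1`, and be an eigenfunction of the
Fricke involution.  Every newform of weight 2 with real coefficients is of this kind; by the
modularity theorem the L-function of every elliptic curve over `ℚ` of conductor `N` is `L(f, s)` for
such an `f`.  The Jensen polynomials `jensen Λ r d n` of the Taylor coefficients of the completed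
L-function at the central point are those of the starting file
`Pool.Agent.Results.MP_553913_nt.NewformJensen`.

All zeros of `Λ` lie on the line `Re s = 1` if and only if no Jensen polynomial has a zero outside of
`(-∞, 0]`.  We prove that, for all `d` and `n`, the Jensen polynomial of degree `d` and shift `n` has
at most `C d ^ (2/3) log (d + 1)` zeros outside of `(-∞, 0]`.
-/

set_option autoImplicit false

namespace Pool.Agent.Results.MP_553913_nt.JensenNonReal

open Polynomial UpperHalfPlane MatrixGroups CongruenceSubgroup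
open Pool.Agent.Results.MP_553913_nt.NewformJensen (IsNormalized IsCompleted gamma jensen)

/-- The number of complex zeros of a real polynomial outside of the half-line `(-∞, 0]`, counted with
multiplicity (`0` for the zero polynomial). -/
noncomputable def outside (P : ℝ[X]) : ℕ :=
  ((P.map (algebraMap ℝ ℂ)).roots.filter fun z => ¬ (z.im = 0 ∧ z.re ≤ 0)).card

theorem result (N : ℕ) [NeZero N] (f : CuspForm (Gamma0 N : Subgroup (GL (Fin 2) ℝ)) 2) (ε : ℝ)
    (hf : IsNormalized N f ε) :
    ∃ Λ : ℂ → ℂ, IsCompleted N f Λ ∧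
      ∃ r : ℕ, r ≤ 1 ∧ (-1) ^ r = ε ∧ (∀ s : ℂ, Λ (2 - s) = (-1) ^ r * Λ s) ∧
        (∃ C : ℝ, ∀ d n : ℕ,
          (outside (jensen Λ r d n) : ℝ) ≤ C * ((d : ℝ) ^ (2 / 3 : ℝ) * Real.log (d + 1))) ∧
        ((∀ s : ℂ, Λ s = 0 → s.re = 1) ↔ ∀ d n : ℕ, outside (jensen Λ r d n) = 0) := by
  have hf' : Pool.Agent.H128R3.EC.IsNorm N f ε := ⟨hf.one, hf.real, hf.sign, hf.fricke⟩
  obtain ⟨B, hH⟩ := Pool.Agent.H128R3.EC.nf_isHk f hf'
  set H := Pool.Agent.H128R3.EC.nfHk N f B ε with hHdef
  set Λ : ℂ → ℂ := mellin (fun y : ℝ => ((H.φ y : ℝ) : ℂ)) with hΛ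
  have hk1 : ((H.k / 2 : ℝ) : ℂ) = 1 := by
    show (((2 : ℝ) / 2 : ℝ) : ℂ) = 1
    norm_num
  have hk2 : (H.k : ℂ) = 2 := by
    show ((2 : ℝ) : ℂ) = 2
    norm_num
  have hga : Pool.Agent.H128R3.GJB.ga H = gamma Λ (Pool.Agent.H128R3.GJB.pr H) := by
    funext k
    rw [Pool.Agent.H128R3.GJB.ga_mellin, hk1]
    rfl
  have hJe : ∀ d n, Pool.Agent.W355.GJ.Crit.jensenP (Pool.Agent.H128R3.GJB.pr H)
      (Pool.Agent.H128R3.GJB.X1 H) d n = jensen Λ (Pool.Agent.H128R3.GJB.pr H) d n := by
    intro d n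
    unfold jensen
    rw [← hga]
    rfl
  have hpr : (-1 : ℝ) ^ Pool.Agent.H128R3.GJB.pr H = ε := by
    have hε : H.ε = ε := rfl
    unfold Pool.Agent.H128R3.GJB.pr
    rw [hε]
    rcases hf.sign with h | h
    · rw [if_pos h, h]
      norm_num
    · rw [if_neg (by rw [h]; norm_num), h]
      norm_num
  refine ⟨Λ, ⟨Pool.Agent.H128R3.GJB.mellin_diff hH, fun s hs =>
    Pool.Agent.H128R3.EC.nf_dir f hf' hH s hs⟩, Pool.Agent.H128R3.GJB.pr H,
    Pool.Agent.H128R3.GJB.pr_le H, hpr, ?_, ?_⟩
  · intro s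
    have h1 := Pool.Agent.H128R3.GJB.mellin_fe hH s
    rw [hk2] at h1
    exact h1
  · obtain ⟨⟨C, -, h1⟩, h2⟩ := Pool.Agent.TH99.RJ.WH.mcritH hH
    have hk3 : H.k / 2 = 1 := by
      show (2 : ℝ) / 2 = 1
      norm_num
    rw [hk3] at h2
    refine ⟨⟨C, fun d n => ?_⟩, h2.trans ?_⟩
    · rw [← hJe]
      exact h1 d n
    · constructor
      · intro h d n
        rw [← hJe]
        exact h d n
      · intro h d n
        have h3 := h d n
        rw [← hJe] at h3
        exact h3

end Pool.Agent.Results.MP_553913_nt.JensenNonReal
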