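import Pool.Agent.TH803.LU.EC2
import Pool.Agent.Results.MP_553913_nt.NewmanConductor

/-!
# The Laguerre inequalities for elliptic curves and their twists, uniformly in the conductor

`E : y² = x³ + a x + b` is an elliptic curve over `ℚ` of conductor `N` with newform `f` (definitions of the
starting file `Pool.Agent.Results.MP_553913_nt.NewmanConductor`), `χ` a primitive Dirichlet character
modulo `q`, `q` prime to `N` (`q = 1`, `χ = 1` gives `E` itself, the quadratic characters the quadratic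
twists of `E`), `Λ(s) = Λ(E ⊗ χ, s)` the completed L-function, `C(t) = N q² (1 + |t|)²` the analytic
conductor, and

  `|Λ(1 + i t + x)|² = ∑ L_n(t) x^(2n)`   (`x` real).

The Riemann hypothesis for `L(E ⊗ χ, s)` holds if and only if `L_n(t) ≥ 0` for all `n` and all real `t`
(the generalised Laguerre inequalities).  We prove that `L_n(t) > 0` for all `n ≥ (1/4 + η) log C(t) + C₀`,
with one constant `C₀ = C₀(η)` for all `E`, `χ` and `t`, so that the Riemann hypothesis for `L(E ⊗ χ, s)` is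
equivalent to `L_n(t) ≥ 0` for the remaining pairs; and that `1/4` can be replaced by `ϑ/2` for those
`(E, χ)` for which `Λ` has no zeros with `Re s > 1 + ϑ`.

Proof (modules `Pool.Agent.TH803.LU`).  `L_n(t)` is a Cauchy integral along the circle through a real
saddle point for `Λ(1 + i t + z) conj Λ(1 + i t + conj z)`, evaluated with the saddle point lemmas of the
starting modules `Pool.Agent.H353R7` after a rescaling as in `Pool.Agent.W355.UN`.  For the criterion: if all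
zeros of `Λ` are on the line, this product is `F(z²)` with `F` real, of minimal exponential type and with
zeros in `(-∞, 0]` only, and this is inherited by the derivatives of `F`.
-/

set_option autoImplicit false

namespace Pool.Agent.Results.MP_553913_nt.LaguerreConductor

open Complex UpperHalfPlane MatrixGroups CongruenceSubgroup
open scoped ComplexConjugate
open Pool.Agent.Results.MP_553913_nt.NewmanConductor (IsFormOf coef)

/-- `Λ` is the completed L-function of the twist of `E` by `χ` modulo `q`: it is entire and equal to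
`(√N q / 2π)^s Γ(s) ∑ c(n) χ(n) n^(-s)` for large real part. -/
def IsCompleted {N : ℕ} (f : CuspForm (Gamma0 N : Subgroup (GL (Fin 2) ℝ)) 2) {q : ℕ}
    (χ : DirichletCharacter ℂ q) (Λ : ℂ → ℂ) : Prop :=
  Differentiable ℂ Λ ∧ ∃ σ : ℝ, ∀ s : ℂ, σ ≤ s.re →
    Λ s = ((Real.sqrt N * q / (2 * Real.pi) : ℝ) : ℂ) ^ s * Complex.Gamma s *
      ∑' n : ℕ, coef f (n + 1) * χ ((n + 1 : ℕ) : ZMod q) * ((n + 1 : ℕ) : ℂ) ^ (-s)

/-- The `n`-th Laguerre expression of `Λ` at height `t`: the coefficient of `x^(2n)` in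
`|Λ(1 + i t + x)|²`, `x` real. -/
noncomputable def L (Λ : ℂ → ℂ) (n : ℕ) (t : ℝ) : ℝ :=
  iteratedDeriv (2 * n) (fun x : ℝ => ‖Λ (1 + t * Complex.I + x)‖ ^ 2) 0 / ((2 * n).factorial : ℝ)

lemma L_eq {Λ : ℂ → ℂ} (h : Differentiable ℂ Λ) (n : ℕ) (t : ℝ) :
    L Λ n t = Pool.Agent.TH803.LU.LC (fun u => Λ (1 + t * Complex.I + u)) n := by
  have hd : Differentiable ℂ (fun u => Λ (1 + t * Complex.I + u)) :=
    h.comp (by fun_prop : Differentiable ℂ fun u : ℂ => 1 + t * Complex.I + u)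
  rw [Pool.Agent.TH803.LU.LC_eq hd]
  rfl

lemma isForm {a b : ℤ} {N : ℕ} {f : CuspForm (Gamma0 N : Subgroup (GL (Fin 2) ℝ)) 2} {w : ℝ}
    (hf : IsFormOf a b N f w) : Pool.Agent.W169.HF.IsForm N f w :=
  { one := hf.one
    real := hf.real
    mul := hf.mul
    pow := hf.pow
    sign := hf.sign
    fricke := hf.fricke
    good := hf.good
    bad := fun p hp hpN => by
      have h1 : (1 : ℝ) ≤ Real.sqrt p := by
        rw [Real.one_le_sqrt]
        exact_mod_cast hp.one_le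
      have h2 : ‖coef f p‖ ≤ 1 := by
        rcases hf.bad p hp hpN with h | h | h <;> simp [h]
      exact h2.trans h1 }

/-- **The theorem.** -/
theorem result :
    (∀ η : ℝ, 0 < η → ∃ C₀ : ℝ, 0 < C₀ ∧
      ∀ (a b : ℤ) (N : ℕ) [NeZero N] (f : CuspForm (Gamma0 N : Subgroup (GL (Fin 2) ℝ)) 2) (w : ℝ),
      4 * a ^ 3 + 27 * b ^ 2 ≠ 0 → IsFormOf a b N f w →
      ∀ (q : ℕ) [NeZero q] (χ : DirichletCharacter ℂ q), χ.IsPrimitive → Nat.Coprime q N →
      ∃ Λ : ℂ → ℂ, IsCompleted f χ Λ ∧ (∀ Λ' : ℂ → ℂ, IsCompleted f χ Λ' → Λ' = Λ) ∧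
        (∀ (n : ℕ) (t : ℝ),
          (1 / 4 + η) * Real.log ((N : ℝ) * (q : ℝ) ^ 2 * (1 + |t|) ^ 2) + C₀ ≤ n → 0 < L Λ n t) ∧
        ((∀ s : ℂ, Λ s = 0 → s.re = 1) ↔ ∀ (n : ℕ) (t : ℝ), (n : ℝ) <
          (1 / 4 + η) * Real.log ((N : ℝ) * (q : ℝ) ^ 2 * (1 + |t|) ^ 2) + C₀ → 0 ≤ L Λ n t)) ∧
    (∀ η ϑ : ℝ, 0 < η → 0 ≤ ϑ → ϑ ≤ 1 / 2 → ∃ C₁ : ℝ,
      ∀ (a b : ℤ) (N : ℕ) [NeZero N] (f : CuspForm (Gamma0 N : Subgroup (GL (Fin 2) ℝ)) 2) (w : ℝ),
      4 * a ^ 3 + 27 * b ^ 2 ≠ 0 → IsFormOf a b N f w →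
      ∀ (q : ℕ) [NeZero q] (χ : DirichletCharacter ℂ q), χ.IsPrimitive → Nat.Coprime q N →
      ∀ Λ : ℂ → ℂ, IsCompleted f χ Λ → (∀ s : ℂ, Λ s = 0 → s.re ≤ 1 + ϑ) →
        ∀ (n : ℕ) (t : ℝ),
          (ϑ / 2 + η) * Real.log ((N : ℝ) * (q : ℝ) ^ 2 * (1 + |t|) ^ 2) + C₁ ≤ n → 0 < L Λ n t) := by
  refine ⟨fun η hη => ?_, fun η ϑ hη h0 h1 => ?_⟩
  · obtain ⟨C, hC, H⟩ := Pool.Agent.TH803.LU.ec_lag hη
    refine ⟨C, hC, ?_⟩
    intro a b N _ f w _ hf q _ χ hχ hco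
    obtain ⟨Λ, h1, h2, h3, h4⟩ := H N f w (isForm hf) q χ hχ hco
    refine ⟨Λ, ⟨h1, h2⟩, fun Λ' h' => Pool.Agent.W355.UN.Pk.uniq h1 h'.1 h2 h'.2, fun n t hn => ?_, ?_⟩
    · rw [L_eq h1]
      exact h3 n t hn
    · simp only [L_eq h1]
      exact h4
  · obtain ⟨C, H⟩ := Pool.Agent.TH803.LU.ec_zf hη h0 h1
    refine ⟨C, ?_⟩
    intro a b N _ f w _ hf q _ χ hχ hco Λ hΛ hz n t hn
    rw [L_eq hΛ.1]
    exact H N f w (isForm hf) q χ hχ hco Λ hΛ.1 hΛ.2 hz n t hn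

end Pool.Agent.Results.MP_553913_nt.LaguerreConductor
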