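import Pool.Agent.Results.MP_553913_nt.NewformJensen
import Pool.Agent.TH809.TP.GenH

/-!
# Multiple positivity of the Taylor coefficients of the L-functions of elliptic curves

Let `f ∈ S_2(Γ_0(N))` have real Fourier coefficients `a(n)`, `a(1) = 1`, and be an eigenfunction of the
Fricke involution.  Every newform of weight 2 with real coefficients is of this kind; by the
modularity theorem the L-function of every elliptic curve over `ℚ` of conductor `N` is `L(f, s)` for
such an `f`.  Let `Λ(1 + z) = z^r G(z²)`, `r ≤ 1`, where `Λ` is the completed L-function (definitions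
of the starting file `Pool.Agent.Results.MP_553913_nt.NewformJensen`).

We prove that there is a constant `C` such that for all orders `m` and all `n ≥ C log (m + 1)` all minors
of order `m` of the Toeplitz matrix of the Taylor coefficients of the `n`-th derivative of `G` are
nonnegative, and that all zeros of `Λ` lie on the line `Re s = 1` if and only if the remaining minors
are nonnegative.
-/

set_option autoImplicit false

namespace Pool.Agent.Results.MP_553913_nt.MultiplePositivity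

open UpperHalfPlane MatrixGroups CongruenceSubgroup
open Pool.Agent.Results.MP_553913_nt.NewformJensen (IsNormalized IsCompleted gamma)

/-- The `k`-th Taylor coefficient of the `n`-th derivative of `G`, where `Λ(1 + z) = z^r G(z²)`, that is
`G(x) = ∑ γ(k) x^k / k!`. -/
noncomputable def coef (Λ : ℂ → ℂ) (r n k : ℕ) : ℝ := gamma Λ r (n + k) / (k.factorial : ℝ)

/-- The upper triangular Toeplitz matrix of these coefficients (row `i`, column `j`). -/
noncomputable def T (Λ : ℂ → ℂ) (r n i j : ℕ) : ℝ := if i ≤ j then coef Λ r n (j - i) else 0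

/-- All minors of order `m` of the infinite matrix `T Λ r n` are nonnegative. -/
def NonnegMinors (Λ : ℂ → ℂ) (r n m : ℕ) : Prop := ∀ a b : Fin m → ℕ, StrictMono a → StrictMono b →
  0 ≤ (Matrix.of fun p q => T Λ r n (a p) (b q)).det

theorem result (N : ℕ) [NeZero N] (f : CuspForm (Gamma0 N : Subgroup (GL (Fin 2) ℝ)) 2) (ε : ℝ)
    (hf : IsNormalized N f ε) :
    ∃ Λ : ℂ → ℂ, IsCompleted N f Λ ∧
      ∃ r : ℕ, r ≤ 1 ∧ (-1) ^ r = ε ∧ (∀ s : ℂ, Λ (2 - s) = (-1) ^ r * Λ s) ∧
      ∃ C : ℝ, 0 < C ∧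
        (∀ m n : ℕ, C * Real.log (m + 1) ≤ n → NonnegMinors Λ r n m) ∧
        ((∀ s : ℂ, Λ s = 0 → s.re = 1) ↔
          ∀ m n : ℕ, (n : ℝ) < C * Real.log (m + 1) → NonnegMinors Λ r n m) := by
  have hf' : Pool.Agent.H128R3.EC.IsNorm N f ε := ⟨hf.one, hf.real, hf.sign, hf.fricke⟩
  obtain ⟨B, hH⟩ := Pool.Agent.H128R3.EC.nf_isHk f hf'
  set H := Pool.Agent.H128R3.EC.nfHk N f B ε with hHdef
  set Λ : ℂ → ℂ := mellin (fun y : ℝ => ((H.φ y : ℝ) : ℂ)) with hΛ
  have hk1 : ((H.k / 2 : ℝ) : ℂ) = 1 := by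
    show (((2 : ℝ) / 2 : ℝ) : ℂ) = 1
    norm_num
  have hk2 : (H.k : ℂ) = 2 := by
    show ((2 : ℝ) : ℂ) = 2
    norm_num
  have hga : Pool.Agent.H128R3.GJB.ga H = gamma Λ (Pool.Agent.H128R3.GJB.pr H) := by
    funext k
    rw [Pool.Agent.H128R3.GJB.ga_mellin, hk1]
    rfl
  have hpr : (-1 : ℝ) ^ Pool.Agent.H128R3.GJB.pr H = ε := by
    have hε : H.ε = ε := rfl
    unfold Pool.Agent.H128R3.GJB.pr
    rw [hε]
    rcases hf.sign with h | h
    · rw [if_pos h, h]
      norm_num
    · rw [if_neg (by rw [h]; norm_num), h]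
      norm_num
  have hM : ∀ m n : ℕ, Pool.Agent.TH809.TP.GC.Minors m (Pool.Agent.TH809.TP.GC.cF
      (Pool.Agent.H128R3.GJB.pr H) (Pool.Agent.H128R3.GJB.X1 H) n) ↔
      NonnegMinors Λ (Pool.Agent.H128R3.GJB.pr H) n m := by
    intro m n
    have e : Pool.Agent.TH809.TP.GC.cF (Pool.Agent.H128R3.GJB.pr H) (Pool.Agent.H128R3.GJB.X1 H) n =
        fun k => coef Λ (Pool.Agent.H128R3.GJB.pr H) n k := by
      funext k
      unfold coef
      rw [← hga]
      rfl
    rw [e]
    rfl
  refine ⟨Λ, ⟨Pool.Agent.H128R3.GJB.mellin_diff hH, fun s hs =>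
    Pool.Agent.H128R3.EC.nf_dir f hf' hH s hs⟩, Pool.Agent.H128R3.GJB.pr H,
    Pool.Agent.H128R3.GJB.pr_le H, hpr, ?_, ?_⟩
  · intro s
    have h1 := Pool.Agent.H128R3.GJB.mellin_fe hH s
    rw [hk2] at h1
    exact h1
  · obtain ⟨C, hC, h1, h2⟩ := Pool.Agent.TH809.TP.GH.mcritH hH
    have hk3 : H.k / 2 = 1 := by
      show (2 : ℝ) / 2 = 1
      norm_num
    rw [hk3] at h2
    refine ⟨C, hC, fun m n hmn => (hM m n).1 (h1 m n hmn), h2.trans ?_⟩
    constructor
    · intro h m n hmn
      exact (hM m n).1 (h m n hmn)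
    · intro h m n hmn
      exact (hM m n).2 (h m n hmn)

end Pool.Agent.Results.MP_553913_nt.MultiplePositivity
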