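import Pool.Agent.TH942.RZ.Coef

/-!
# Riesz means and the Riemann hypothesis for the L-function of an elliptic curve

Let `E : y² = x³ + a x + b` be an elliptic curve over `ℚ`, `a, b ∈ ℤ`, let `N_p` be the number of affine
points modulo a prime `p ∤ 2Δ`, let `F` be the entire continuation of the (incomplete) `L`-series of `E`, `m` its
order at `1`, and for real `k > 0` let

`R_k(X) = ∑_{p ≤ X, p ∤ 2Δ} (1 - log p / log X)^k log ((N_p + 1) / p)`

be the Riesz mean of order `k` (in `log X`) of the logarithms of the products of Birch and Swinnerton-Dyer. There is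
a dichotomy, for every curve:

* if `F` has no zeros with `Re s > 1` (by the functional equation this is the Riemann hypothesis for `E`), then
  `R_k(X) = m log log X + (log 2)/2 - m ψ(k+1) - log (F^{(m)}(1)/m!) + o(1)` for EVERY `k > 0`, `ψ = Γ'/Γ`;
* if `F` has a zero `s` with `Re s > 1`, then for every `k > 0` and `α < Re s - 1` the quotient
  `|R_k(X)| / X^α` is unbounded; more generally the same is true, with `α < β (Re s - 1)`, for the mean
  `∑_{p ≤ X^β} w(log p / log X) log ((N_p + 1) / p)` with ANY bounded measurable `w` on `(0, β]` which is not almost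
  everywhere zero near `β`.

So the Riemann hypothesis for `E` is equivalent to the exact asymptotic formula for `R_k` up to `o(1)`, for all
or for one `k > 0`, and also to the bound `O(X^ε)` for all `ε > 0` for one such mean. For `k = 0` (sharp cut-off)
the formula implies the Riemann hypothesis (Goldfeld 1982), and the converse is not known.

Proof. First part: `R_k(e^T) = Γ(k+1) (2πi)⁻¹ ∫ D(z/T) e^z z^{-k-1} dz` over `Re z = 1`, where
`D(s) = ∑ log ((N_p + 1)/p) p^{-s} = - log L(E, 1 + s) + O(1 + log (1 + |s|/Re s))`. The modular form gives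
`|L(E, 1 + s)| ≤ C |s| (Re s)^{-2}` (partial sums `O(x log x)` of its coefficients), and for `log L(E, 1 + s)`, of
which only the real part is bounded above, Poisson's formula and the theorem of Borel and Carathéodory give
`∫ |log L(E, 1 + x + it)| (1 + |t|)^{-1-k} dt = O(log² (1/x))`, which suffices for every `k > 0`; the second order
terms are controlled by the theorem of Rankin and Selberg. Second part: the Laplace transform in `T = log X` of
the mean would continue beyond the outermost zero on a ray, and then the Cauchy transform of `w` would continue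
across an interval below `β`; so `w` would vanish there (Plemelj).
-/

set_option autoImplicit false

namespace Pool.Agent.Results.MP_553913_nt.RieszMeans

open Pool.Agent.W263.BSD Filter Topology Classical MeasureTheory
open CongruenceSubgroup UpperHalfPlane
open scoped MatrixGroups

/-- `R_k(X)`: the sum over the primes `p ≤ X`, `p ∤ 2Δ`, of
`(1 - log p / log X)^k log ((N_p + 1) / p)`. -/
noncomputable def rieszMean (a b : ℤ) (k X : ℝ) : ℝ :=
  ∑ p ∈ (Finset.range (⌊X⌋₊ + 1)).filter (GoodPrime a b),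
    (1 - Real.log p / Real.log X) ^ k * Real.log (((pointCount a b p : ℝ) + 1) / p)

/-- `M_w(X)`: the sum over the primes `p ≤ X^β`, `p ∤ 2Δ`, of `w(log p / log X) log ((N_p + 1) / p)`. -/
noncomputable def mean (a b : ℤ) (w : ℝ → ℝ) (β X : ℝ) : ℝ :=
  ∑ p ∈ (Finset.range (⌊X ^ β⌋₊ + 1)).filter (GoodPrime a b),
    w (Real.log p / Real.log X) * Real.log (((pointCount a b p : ℝ) + 1) / p)

/-- The weights on `(0, β]`: bounded and measurable, not almost everywhere `0` on any interval `(κ, β)`. -/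
structure IsWeight (β : ℝ) (w : ℝ → ℝ) : Prop where
  pos : 0 < β
  meas : Measurable w
  bdd : ∃ W : ℝ, ∀ u : ℝ, 0 < u → u ≤ β → |w u| ≤ W
  top : ∀ κ : ℝ, κ < β → ¬ ∀ᵐ u : ℝ, u ∈ Set.Ioo κ β → w u = 0

/-- `ψ(x) = Γ'(x) / Γ(x)`. -/
noncomputable def psi (x : ℝ) : ℝ := deriv Real.Gamma x / Real.Gamma x

/-- The `n`-th Fourier coefficient of `f`. -/
noncomputable def coef {N : ℕ} (f : CuspForm (Gamma0 N : Subgroup (GL (Fin 2) ℝ)) 2) (n : ℕ) : ℂ :=
  (qExpansion 1 f).coeff n

/-- `f ∈ S_2(Γ₀(N))` is the newform of the elliptic curve `E : y² = x³ + a x + b` of conductor `N`: the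
Fourier coefficients `c(n)` of `f` are real with `c(1) = 1`, they satisfy the Hecke relations
`c(mn) = c(m) c(n)` for coprime `m`, `n` and `c(p^(j+2)) = c(p) c(p^(j+1)) - p c(p^j)` (without the last
term if `p ∣ N`), `c(p) = a_p = p - N_p` (`N_p` affine points) for all primes `p ∤ 2Δ`, `|c(p)| ≤ 2 √p` for
all `p ∤ N` (Hasse) and `c(p) = 0, 1, -1` for `p ∣ N`. -/
structure IsNewformOf (a b : ℤ) (N : ℕ) (f : CuspForm (Gamma0 N : Subgroup (GL (Fin 2) ℝ)) 2) :
    Prop where
  one : coef f 1 = 1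
  real : ∀ n, (coef f n).im = 0
  mul : ∀ m n : ℕ, Nat.Coprime m n → coef f (m * n) = coef f m * coef f n
  pow : ∀ p j : ℕ, p.Prime → coef f (p ^ (j + 2)) = coef f p * coef f (p ^ (j + 1)) -
      (if p ∣ N then 0 else (p : ℂ) * coef f (p ^ j))
  points : ∀ p : ℕ, GoodPrime a b p → coef f p = (p : ℂ) - (pointCount a b p : ℂ)
  good : ∀ p : ℕ, p.Prime → ¬ p ∣ N → ‖coef f p‖ ≤ 2 * Real.sqrt p
  bad : ∀ p : ℕ, p.Prime → p ∣ N → coef f p = 0 ∨ coef f p = 1 ∨ coef f p = -1

variable {a b : ℤ} {F : ℂ → ℂ}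

theorem hecke {N : ℕ} {f : CuspForm (Gamma0 N : Subgroup (GL (Fin 2) ℝ)) 2}
    (hf : IsNewformOf a b N f) : Pool.Agent.TH941.Hecke f where
  one := hf.one
  real := hf.real
  mul := hf.mul
  pow := hf.pow
  good := hf.good
  bad := fun p hp h => by
    rcases hf.bad p hp h with h1 | h1 | h1
    · have h2 : ‖coef f p‖ ≤ 1 := by rw [h1]; simp
      exact h2
    · have h2 : ‖coef f p‖ ≤ 1 := by rw [h1]; simp
      exact h2
    · have h2 : ‖coef f p‖ ≤ 1 := by rw [h1]; simp
      exact h2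

theorem rs {N : ℕ} [NeZero N] {f : CuspForm (Gamma0 N : Subgroup (GL (Fin 2) ℝ)) 2}
    (hΔ : 4 * a ^ 3 + 27 * b ^ 2 ≠ 0) (hf : IsNewformOf a b N f) :
    Tendsto (Pool.Agent.W263.BSD.rsSum a b) atTop (𝓝 0) :=
  (hecke hf).rsSum_tendsto hΔ fun p hp => hf.points p hp

theorem mean_congr {a b : ℤ} {w v : ℝ → ℝ} {β : ℝ} (h : ∀ u, 0 < u → u ≤ β → w u = v u) {X : ℝ}
    (hX : 1 < X) : mean a b w β X = mean a b v β X := by
  unfold mean
  refine Finset.sum_congr rfl fun p hp => ?_
  obtain ⟨h1, h2⟩ := Finset.mem_filter.1 hp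
  have hX0 : 0 < X := by linarith
  have hT : 0 < Real.log X := Real.log_pos hX
  have hp1 : (1 : ℝ) < p := by exact_mod_cast h2.1.one_lt
  have h3 : (p : ℝ) ≤ X ^ β := by
    rw [Finset.mem_range, Nat.lt_succ_iff] at h1
    exact (Nat.le_floor_iff (by positivity)).1 h1
  rw [h _ (div_pos (Real.log_pos hp1) hT)]
  rw [div_le_iff₀ hT, ← Real.log_rpow hX0]
  exact Real.log_le_log (by linarith) h3

/-- every zero to the right of the critical line makes every mean large -/
theorem omega {a b : ℤ} {F : ℂ → ℂ} (hF : IsLSeries a b F)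
    {β : ℝ} {w : ℝ → ℝ} (hw : IsWeight β w) : ∀ s : ℂ, 1 < s.re → F s = 0 →
      ∀ α : ℝ, α < β * (s.re - 1) → ∀ C : ℝ,
      ∃ᶠ X : ℝ in atTop, C * X ^ α < |mean a b w β X| := by
  obtain ⟨hβ, hmeas, hbd, htop⟩ := hw
  obtain ⟨W, hW⟩ := hbd
  -- truncation of the weight
  set v : ℝ → ℝ := (Set.Ioc 0 β).indicator w with hv
  have hvw : ∀ u, 0 < u → u ≤ β → w u = v u := fun u h1 h2 => by
    rw [hv, Set.indicator_of_mem (show u ∈ Set.Ioc 0 β from ⟨h1, h2⟩)]
  have hW0 : 0 ≤ W := (abs_nonneg _).trans (hW β hβ le_rfl)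
  have hwt : TH942.LS.Wt v W β := by
    refine ⟨hmeas.indicator measurableSet_Ioc, fun u => ?_, hβ, fun u hu => ?_⟩
    · by_cases h : u ∈ Set.Ioc 0 β
      · rw [hv, Set.indicator_of_mem h]
        exact hW u h.1 h.2
      · rw [hv, Set.indicator_of_notMem h, abs_zero]
        exact hW0
    · rw [hv, Set.indicator_of_notMem (fun h => not_lt.2 h.2 hu)]
  have htop' : ∀ κ, κ < β → ¬ ∀ᵐ x, x ∈ Set.Ioo κ β → v x = 0 := by
    intro κ hκ h
    refine htop (max κ 0) (max_lt hκ hβ) ?_
    filter_upwards [h] with u hu hu2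
    have h1 : 0 < u := (le_max_right _ _).trans_lt hu2.1
    rw [hvw u h1 hu2.2.le]
    exact hu ⟨(le_max_left _ _).trans_lt hu2.1, hu2.2⟩
  have key : ∀ s : ℂ, 1 < s.re → F s = 0 → ∀ α : ℝ, α < β * (s.re - 1) → ∀ C : ℝ,
      ∃ᶠ X : ℝ in atTop, C * X ^ α < |mean a b w β X| := by
    intro s hs h0 α hα C
    rw [Filter.Frequently]
    intro hne
    refine TH942.LS.omega hF hwt htop' hs h0 hα (C := C) ?_
    filter_upwards [hne, eventually_gt_atTop 1] with X h1 h2
    rw [not_lt, mean_congr hvw h2] at h1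
    exact h1
  exact key

theorem loglog_tendsto : Tendsto (fun X : ℝ => Real.log (Real.log X)) atTop atTop :=
  Real.tendsto_log_atTop.comp Real.tendsto_log_atTop

/-- the Riesz weight -/
theorem riesz_weight {k : ℝ} (hk : 0 < k) : IsWeight 1 (TH942.RZ.rzv k) where
  pos := one_pos
  meas := (TH942.RZ.rzv_Wt hk).meas
  bdd := ⟨1, fun u _ _ => (TH942.RZ.rzv_Wt hk).bd u⟩
  top := TH942.RZ.rzv_top

theorem riesz_eq_mean {a b : ℤ} {k : ℝ} {X : ℝ} (hX : 1 < X) :
    rieszMean a b k X = mean a b (TH942.RZ.rzv k) 1 X := by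
  unfold rieszMean mean
  rw [Real.rpow_one]
  refine Finset.sum_congr rfl fun p hp => ?_
  obtain ⟨h1, h2⟩ := Finset.mem_filter.1 hp
  have hT : 0 < Real.log X := Real.log_pos hX
  have hp1 : (1 : ℝ) < p := by exact_mod_cast h2.1.one_lt
  have h3 : (p : ℝ) ≤ X := by
    rw [Finset.mem_range, Nat.lt_succ_iff] at h1
    exact (Nat.le_floor_iff (by linarith)).1 h1
  have h4 : Real.log p / Real.log X ≤ 1 := by
    rw [div_le_one hT]
    exact Real.log_le_log (by linarith) h3
  have h5 : 0 < Real.log p / Real.log X := div_pos (Real.log_pos hp1) hT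
  unfold TH942.RZ.rzv
  rw [Set.indicator_of_mem (show Real.log p / Real.log X ∈ Set.Ioc (0 : ℝ) 1 from ⟨h5, h4⟩)]
  unfold TH942.RZ.rzw
  rw [max_eq_left (by linarith)]

/-- **The dichotomy for Riesz means.** -/
theorem result (a b : ℤ) (hΔ : 4 * a ^ 3 + 27 * b ^ 2 ≠ 0) (F : ℂ → ℂ) (hF : IsLSeries a b F)
    (N : ℕ) [NeZero N] (f : CuspForm (Gamma0 N : Subgroup (GL (Fin 2) ℝ)) 2)
    (hf : IsNewformOf a b N f) :
    ∃ (m : ℕ) (A : ℝ), analyticOrderAt F 1 = m ∧ A ≠ 0 ∧
      iteratedDeriv m F 1 / m.factorial = (A : ℂ) ∧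
      List.TFAE [
        ∀ s : ℂ, 1 < s.re → F s ≠ 0,
        ∀ k : ℝ, 0 < k → Tendsto (fun X : ℝ => rieszMean a b k X - m * Real.log (Real.log X)) atTop
          (𝓝 (Real.log 2 / 2 - m * psi (k + 1) - Real.log A)),
        ∃ (β : ℝ) (w : ℝ → ℝ), IsWeight β w ∧ ∀ ε : ℝ, 0 < ε → ∃ C : ℝ, ∀ᶠ X : ℝ in atTop,
          |mean a b w β X| ≤ C * X ^ ε] ∧
      ∀ s : ℂ, 1 < s.re → F s = 0 → ∀ (β : ℝ) (w : ℝ → ℝ), IsWeight β w →
        ∀ α : ℝ, α < β * (s.re - 1) → ∀ C : ℝ, ∃ᶠ X : ℝ in atTop,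
          C * X ^ α < |mean a b w β X| := by
  have hrs := rs hΔ hf
  have hgr := TH942.RZ.growth_newform hΔ hF (hecke hf) fun p hp => hf.points p hp
  obtain ⟨m, hm⟩ := Pool.Agent.W189.ML.order_finite_all hF 1
  obtain ⟨A, hA, hA2⟩ := TH942.RZ.coeff_real hF hm
  refine ⟨m, A, hm, hA, hA2, ?_, fun s hs h0 β w hw => omega hF hw s hs h0⟩
  tfae_have 1 → 2 := by
    intro hz k hk
    obtain ⟨κ, h1, h2⟩ := TH942.RZ.curve_riesz hΔ hrs hgr hF hm hz hk
    have h3 := h1.comp Real.tendsto_log_atTop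
    have h4 : Real.exp κ * A = √2 * Real.exp (-(m * psi (k + 1))) := by
      rw [hA2] at h2
      unfold psi
      exact_mod_cast h2
    have h5 : κ = Real.log 2 / 2 - m * psi (k + 1) - Real.log A := by
      have hE := Real.exp_pos κ
      have hA0 : 0 < A := by
        have : 0 < Real.exp κ * A := by rw [h4]; positivity
        exact (mul_pos_iff_of_pos_left hE).1 this
      have h6 := congrArg Real.log h4
      rw [Real.log_mul hE.ne' hA0.ne', Real.log_exp, Real.log_mul (by positivity)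
        (Real.exp_pos _).ne', Real.log_exp, Real.log_sqrt (by norm_num)] at h6
      linarith
    rw [← h5]
    refine h3.congr' ?_
    filter_upwards [eventually_gt_atTop 1] with X hX
    simp only [Function.comp_apply]
    rw [← TH942.RZ.rz_eq hk hX]
    rfl
  tfae_have 2 → 3 := by
    intro h
    refine ⟨1, TH942.RZ.rzv 1, riesz_weight one_pos, fun ε hε => ?_⟩
    have h1 := h 1 one_pos
    set c := Real.log 2 / 2 - m * psi (1 + 1) - Real.log A with hc
    refine ⟨(m : ℝ) / ε + (|c| + 1), ?_⟩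
    have h2 : ∀ᶠ X : ℝ in atTop, |rieszMean a b 1 X - m * Real.log (Real.log X) - c| < 1 := by
      refine ((Metric.tendsto_nhds.1 h1) 1 one_pos).mono fun X hX => ?_
      rwa [Real.dist_eq] at hX
    filter_upwards [h2, eventually_ge_atTop (Real.exp 1)] with X h3 h4
    have hX1 : 1 < X := by
      have := Real.exp_one_gt_d9
      linarith
    have hX0 : 0 < X := by linarith
    have hl1 : 1 ≤ Real.log X := by rwa [Real.le_log_iff_exp_le hX0]
    rw [← riesz_eq_mean hX1]
    have e1 : Real.log (Real.log X) ≤ Real.log X - 1 := Real.log_le_sub_one_of_pos (by linarith)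
    have e2 := Real.log_le_rpow_div hX0.le hε
    have e3 : 0 ≤ Real.log (Real.log X) := Real.log_nonneg hl1
    have e4 : 1 ≤ X ^ ε := Real.one_le_rpow hX1.le hε.le
    have e5 : |rieszMean a b 1 X| ≤ m * Real.log (Real.log X) + |c| + 1 := by
      have e6 := abs_add_le (rieszMean a b 1 X - m * Real.log (Real.log X) - c)
        (m * Real.log (Real.log X) + c)
      have e7 : rieszMean a b 1 X - m * Real.log (Real.log X) - c +
        (m * Real.log (Real.log X) + c) = rieszMean a b 1 X := by ring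
      rw [e7] at e6
      have e8 := abs_add_le (m * Real.log (Real.log X)) c
      rw [abs_of_nonneg (by positivity : 0 ≤ (m : ℝ) * Real.log (Real.log X))] at e8
      linarith
    have e9 : (m : ℝ) * Real.log (Real.log X) ≤ m * (X ^ ε / ε) :=
      mul_le_mul_of_nonneg_left (by linarith) (Nat.cast_nonneg m)
    have e10 : |c| + 1 ≤ (|c| + 1) * X ^ ε := by
      have := abs_nonneg c
      nlinarith
    calc _ ≤ m * (X ^ ε / ε) + (|c| + 1) * X ^ ε := by linarith
      _ = _ := by ring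
  tfae_have 3 → 1 := by
    rintro ⟨β, w, hw, h⟩ s hs h0
    have hpos : 0 < β * (s.re - 1) := mul_pos hw.pos (by linarith)
    obtain ⟨C, hC⟩ := h (β * (s.re - 1) / 2) (by positivity)
    obtain ⟨X, h1, h2⟩ := ((omega hF hw s hs h0 (β * (s.re - 1) / 2) (by linarith)
      C).and_eventually hC).exists
    exact not_lt.2 h2 h1
  tfae_finish

end Pool.Agent.Results.MP_553913_nt.RieszMeans
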